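import Pool.Agent.KDV.Main

/-!
# MP_f87d4f_lc : Q1 with an error term beyond the Borel–Cantelli bound

For every set `A` the inequality `K(A ↾ n) ≤ K(B ↾ n) + K(n) + O(1)` holds for every 1-random `B`,
and the numbers `2 ^ (-K(n))` have a finite sum. Here the error `K(n)` is replaced by
`min (f n) (K n)`, where `f` is computable and the sum of the numbers `2 ^ (-f(n))` diverges: for
infinitely many `k` there are at least `2 ^ k * k / (size k)` numbers `n` with `f n ≤ k`, where
`size k` is the length of the binary expansion of `k`.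
-/

namespace Pool.Agent.Results.MP_f87d4f_lc.DivergentError

open AC

/-- Prefix-free complexity of a string with respect to the machine `U`. -/
noncomputable def K (U : List Bool →. ℕ) (σ : List Bool) : ℕ := KC U (Encodable.encode σ)

/-- There is a computable `f` such that
* the sum of the numbers `2 ^ (-f n)` diverges, and for infinitely many `k` there are at least
  `k * 2 ^ k / (size k)` numbers `n` with `f n ≤ k`;
* for every optimal prefix-free machine `U` there is one constant `c` such that every set `A` has a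
  1-random set `B` with `n ≤ K(B ↾ n) + c` and `K(A ↾ n) ≤ K(B ↾ n) + min (f n) (K n) + c` for all
  `n`. -/
theorem result : ∃ f : ℕ → ℕ, Computable f ∧ (¬ Summable fun n => (1 / 2 : ℝ) ^ f n) ∧
    (∀ k₀ : ℕ, ∃ k ≥ k₀, ∃ S : Finset ℕ, (∀ n ∈ S, f n ≤ k) ∧ k * 2 ^ k ≤ k.size * S.card) ∧
    ∀ U, IsOptimal ∅ U → ∃ c : ℕ, ∀ A : Set ℕ, ∃ B : Set ℕ, IsRandom B ∧ ∀ n,
      n ≤ K U (restr B n) + c ∧
      K U (restr A n) ≤ K U (restr B n) + min (f n) (KC U n) + c := by
  refine ⟨KDV.fe, KDV.computable_fe, KDV.not_summable_fe, fun k₀ => ?_, fun U hU => ?_⟩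
  · obtain ⟨S, h1, h2⟩ := KDV.many_fe k₀
    exact ⟨KDV.nu k₀, KDV.le_nu k₀, S, h1, h2⟩
  · obtain ⟨c, hc⟩ := KDV.main hU
    refine ⟨c, fun A => ?_⟩
    obtain ⟨B, hB⟩ := hc A
    exact ⟨B, (KRD.schnorr hU).2 ⟨c, fun n => (hB n).1⟩, hB⟩

end Pool.Agent.Results.MP_f87d4f_lc.DivergentError
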