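import Pool.Agent.KRed.Gen

set_option autoImplicit false

namespace Pool.Agent.Results.MP_f87d4f_lc.ZeroOne

open AC

/-- The prefix-free complexity of the string `σ`, with respect to the machine `U`. -/
noncomputable def K (U : List Bool →. ℕ) (σ : List Bool) : ℕ := KC U (Encodable.encode σ)

/-- `A` is K-reducible to `B`: `K(A ↾ n) ≤ K(B ↾ n) + c` for some `c` and all `n`. -/
def KLe (U : List Bool →. ℕ) (A B : Set ℕ) : Prop :=
  ∃ c, ∀ n, K U (restr A n) ≤ K U (restr B n) + c

/-- `A` is weakly 2-generic: every dense set of strings which is computably enumerable relative to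
the halting problem (the domain of a partial function `f` recursive in `∅'`) contains an initial
segment of `A`. -/
def Weakly2Generic (A : Set ℕ) : Prop :=
  ∀ f : List Bool →. ℕ, RecursiveIn {chi halting} f →
    (∀ σ, ∃ τ, σ <+: τ ∧ (f τ).Dom) → ∃ s, (f (restr A s)).Dom

/-- Zero-one law and uniformity for the K-reducibility of sets to 1-random sets. -/
theorem result (U : List Bool →. ℕ) (hU : IsOptimal ∅ U) :
    List.TFAE [
      -- (1) every set is K-reducible to a 1-random set
      ∀ A : Set ℕ, ∃ B, IsRandom B ∧ KLe U A B,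
      -- (2) every set `A ≤_T ∅'` is K-reducible to a 1-random set
      ∀ A : Set ℕ, LeT A halting → ∃ B, IsRandom B ∧ KLe U A B,
      -- (3) every weakly 2-generic set is K-reducible to a 1-random set
      ∀ A : Set ℕ, Weakly2Generic A → ∃ B, IsRandom B ∧ KLe U A B,
      -- (4) some weakly 2-generic set is K-reducible to a 1-random set
      ∃ A : Set ℕ, Weakly2Generic A ∧ ∃ B, IsRandom B ∧ KLe U A B,
      -- (5) the class of the sets which are K-reducible to a 1-random set is not meagre
      ¬ IsMeagre {x : ℕ → Bool | ∃ B, IsRandom B ∧ KLe U {n | x n = true} B},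
      -- (6) one constant is good for all sets
      ∃ c, ∀ A : Set ℕ, ∃ B, IsRandom B ∧
        ∀ n, n ≤ K U (restr B n) + c ∧ K U (restr A n) ≤ K U (restr B n) + c,
      -- (7) one constant is good for all strings
      ∃ c, ∀ τ : List Bool, ∃ σ : List Bool, σ.length = τ.length ∧ ∀ n ≤ τ.length,
        n ≤ K U (σ.take n) + c ∧ K U (τ.take n) ≤ K U (σ.take n) + c] := by
  have h := KRed.main hU
  tfae_have 1 → 2 := fun h A _ => h A
  tfae_have 2 → 7 := fun h' => (h.out 1 4).1 h'
  tfae_have 7 → 6 := fun h' => (h.out 4 3).1 h'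
  tfae_have 6 → 1 := fun h' => (h.out 3 0).1 h'
  tfae_have 1 → 3 := fun h A _ => h A
  tfae_have 3 → 4 := by
    intro h'
    obtain ⟨G, hG⟩ := KRed.exists_generic halting
    exact ⟨G, hG, h' G hG⟩
  tfae_have 4 → 1 := by
    rintro ⟨A, hA, hB⟩
    exact (KRed.main_generic hU hA).1 hB
  tfae_have 1 → 5 := fun h' => (h.out 0 2).1 h'
  tfae_have 5 → 1 := fun h' => (h.out 2 0).1 h'
  tfae_finish

end Pool.Agent.Results.MP_f87d4f_lc.ZeroOne
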